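import Mathlib

set_option autoImplicit false

/-!
# MP_af98ca_al: groups of local shift involutions with many periodic or folded points

`S_F` is a subshift over `A` and `G_F` is generated by the involutions `φ_a`, which move a point `x`
along the line of its shifts over the edges labelled `a` (the edge between the shifts by `t - 1` and
`t` is labelled `x t`). We show that `G_F` is residually finite if each window of each point of
`S_F` occurs in a periodic point of `S_F`, or inside a copy of `w` in a folded point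
`… f₀ w f₁ w^R f₂ w f₃ w^R …` of `S_F` (`w^R` is `w` reversed, the `f_i` are any letters).
In the second case the line maps onto the finite path labelled by `w`, and `G_F` acts on this path.
-/

namespace Pool.Agent.Results.MP_af98ca_al.PeriodicAndFoldedPoints

variable {A : Type}

/-- The subshift `S_F`: the sequences `x` in `A^ℤ` without a finite subword in `F`. -/
def SF (F : Set (List A)) : Set (ℤ → A) :=
  {x | ∀ (m : ℤ) (n : ℕ), List.ofFn (fun i : Fin n => x (m + i)) ∉ F}

/-- The shift by `k`: `(sh k x)(n) = x(n + k)`, so that `sh 1` is `σ`. -/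
def sh (k : ℤ) (x : ℤ → A) : ℤ → A := fun n => x (n + k)

theorem sh_mem {F : Set (List A)} (k : ℤ) {x : ℤ → A} (hx : x ∈ SF F) : sh k x ∈ SF F := by
  intro m n
  have h := hx (m + k) n
  have e : (fun i : Fin n => sh k x (m + i)) = fun i : Fin n => x (m + k + i) := by
    funext i
    show x (m + i + k) = x (m + k + i)
    congr 1
    ring
  rw [e]
  exact h

open Classical in
/-- `φ_a(x) = σ x` if `x(1) = a`, `φ_a(x) = σ⁻¹ x` if `x(0) = a`, and `φ_a(x) = x` otherwise. -/
noncomputable def phi {F : Set (List A)} (a : A) (x : SF F) : SF F :=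
  if x.1 1 = a then ⟨sh 1 x.1, sh_mem 1 x.2⟩
  else if x.1 0 = a then ⟨sh (-1) x.1, sh_mem (-1) x.2⟩ else x

open Classical in
/-- The permutation of `S_F` given by `φ_a`, if `φ_a` is an involution; this is the case if all
`aa` are in `F` (`phi_invol`). -/
noncomputable def phiPerm (F : Set (List A)) (a : A) : Equiv.Perm (SF F) :=
  if h : Function.Involutive (phi (F := F) a) then h.toPerm else 1

/-- The group `G_F`, generated by the `φ_a`. -/
noncomputable def GF (F : Set (List A)) : Subgroup (Equiv.Perm (SF F)) :=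
  Subgroup.closure (Set.range (phiPerm F))

/-- The intersection of the subgroups of finite index is trivial. -/
def ResiduallyFinite (G : Type) [Group G] : Prop :=
  ∀ g : G, (∀ H : Subgroup G, H.FiniteIndex → g ∈ H) → g = 1

/-- `y` is periodic. -/
def Periodic (y : ℤ → A) : Prop := ∃ q : ℤ, q ≠ 0 ∧ ∀ t, y (t + q) = y t

/-- `y` is folded at the places `p + M ℤ`: the word between `p` and `p + M` is repeated between
any two consecutive such places, alternately reversed and not reversed; the letters at the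
places `p + M ℤ` are arbitrary. -/
def Folded (y : ℤ → A) (p M : ℤ) : Prop :=
  ∀ t, ¬ M ∣ t - p → y (2 * p - t) = y t ∧ y (t + 2 * M) = y t

/-! ### the line of a point -/

open Classical in
/-- the action of `φ_a` on the line -/
noncomputable def st (y : ℤ → A) (a : A) (k : ℤ) : ℤ :=
  if y (k + 1) = a then k + 1 else if y k = a then k - 1 else k

theorem ne_succ {F : Set (List A)} (hF : ∀ a, [a, a] ∈ F) {x : ℤ → A} (hx : x ∈ SF F) (k : ℤ) :
    x k ≠ x (k + 1) := by
  intro h
  apply hx k 2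
  have e : List.ofFn (fun i : Fin 2 => x (k + (i : ℕ))) = [x k, x k] := by
    simp [List.ofFn_succ, ← h]
  rw [e]
  exact hF _

/-- the shift of a point of `S_F` -/
def S {F : Set (List A)} (k : ℤ) (x : SF F) : SF F := ⟨sh k x.1, sh_mem k x.2⟩

theorem phi_S {F : Set (List A)} (a : A) (k : ℤ) (x : SF F) : phi a (S k x) = S (st x.1 a k) x := by
  have h1 : (S k x).1 1 = x.1 (k + 1) := by
    show x.1 (1 + k) = _
    rw [add_comm]
  have h0 : (S k x).1 0 = x.1 k := by
    show x.1 (0 + k) = _
    rw [zero_add]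
  unfold phi st
  rw [h1, h0]
  split_ifs with h2 h3
  · apply Subtype.ext
    funext n
    show x.1 (n + 1 + k) = x.1 (n + (k + 1))
    rw [show n + 1 + k = n + (k + 1) by ring]
  · apply Subtype.ext
    funext n
    show x.1 (n + -1 + k) = x.1 (n + (k - 1))
    rw [show n + -1 + k = n + (k - 1) by ring]
  · rfl

theorem S_zero {F : Set (List A)} (x : SF F) : S 0 x = x := by
  apply Subtype.ext
  funext n
  show x.1 (n + 0) = x.1 n
  rw [add_zero]

theorem st_st {F : Set (List A)} (hF : ∀ a, [a, a] ∈ F) (x : SF F) (a : A) (k : ℤ) :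
    st x.1 a (st x.1 a k) = k := by
  have h0 := ne_succ hF x.2 k
  have h1 := ne_succ hF x.2 (k + 1)
  have h2 := ne_succ hF x.2 (k - 1)
  rw [sub_add_cancel] at h2
  unfold st
  by_cases ha : x.1 (k + 1) = a
  · rw [if_pos ha]
    have h3 : ¬ x.1 (k + 1 + 1) = a := fun h => h1 (by rw [ha, h])
    rw [if_neg h3, if_pos ha]
    ring
  · rw [if_neg ha]
    by_cases hb : x.1 k = a
    · rw [if_pos hb, sub_add_cancel, if_pos hb]
    · rw [if_neg hb, if_neg ha, if_neg hb]

theorem phi_invol {F : Set (List A)} (hF : ∀ a, [a, a] ∈ F) (a : A) :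
    Function.Involutive (phi (F := F) a) := by
  intro x
  have h1 := phi_S a 0 x
  have h2 := phi_S a (st x.1 a 0) x
  rw [S_zero] at h1
  rw [h1, h2, st_st hF, S_zero]

theorem perm_apply {F : Set (List A)} (hF : ∀ a, [a, a] ∈ F) (a : A) (x : SF F) :
    phiPerm F a x = phi a x := by
  unfold phiPerm
  rw [dif_pos (phi_invol hF a)]
  rfl

theorem perm_inv {F : Set (List A)} (hF : ∀ a, [a, a] ∈ F) (a : A) :
    (phiPerm F a)⁻¹ = phiPerm F a := by
  rw [inv_eq_iff_mul_eq_one]
  ext1 x
  rw [Equiv.Perm.mul_apply, perm_apply hF, perm_apply hF, phi_invol hF a x]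
  rfl

/-- the action of a word on the line -/
noncomputable def run (y : ℤ → A) : List A → ℤ → ℤ
  | [], k => k
  | a :: W, k => st y a (run y W k)

/-- the element of `G_F` given by a word -/
noncomputable def el (F : Set (List A)) (W : List A) : Equiv.Perm (SF F) := (W.map (phiPerm F)).prod

theorem el_S {F : Set (List A)} (hF : ∀ a, [a, a] ∈ F) (W : List A) (k : ℤ) (x : SF F) :
    el F W (S k x) = S (run x.1 W k) x := by
  induction W with
  | nil => rfl
  | cons a W ih =>
    show (phiPerm F a * el F W) (S k x) = _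
    rw [Equiv.Perm.mul_apply, ih, perm_apply hF, phi_S]
    rfl

theorem exists_word {F : Set (List A)} (hF : ∀ a, [a, a] ∈ F) (g : Equiv.Perm (SF F)) (hg : g ∈ GF F) :
    ∃ W, g = el F W := by
  unfold GF at hg
  induction hg using Subgroup.closure_induction with
  | mem g hg =>
    obtain ⟨a, rfl⟩ := hg
    exact ⟨[a], by simp [el]⟩
  | one => exact ⟨[], by simp [el]⟩
  | mul g h _ _ ihg ihh =>
    obtain ⟨W, rfl⟩ := ihg
    obtain ⟨V, rfl⟩ := ihh
    exact ⟨W ++ V, by simp [el]⟩
  | inv g _ ih =>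
    obtain ⟨W, rfl⟩ := ih
    refine ⟨W.reverse, ?_⟩
    unfold el
    rw [List.prod_inv_reverse, List.map_map, List.map_reverse]
    congr 2
    apply List.map_congr_left
    intro a _
    exact perm_inv hF a

theorem run_local {x y : ℤ → A} {N : ℤ} (h : ∀ t, |t| ≤ N → x t = y t) (W : List A)
    (hW : (W.length : ℤ) ≤ N) : |run x W 0| ≤ W.length ∧ run x W 0 = run y W 0 := by
  induction W with
  | nil => exact ⟨by simp [run], rfl⟩
  | cons a W ih =>
    rw [List.length_cons] at hW
    push_cast at hW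
    obtain ⟨h1, h2⟩ := ih (by linarith)
    rw [List.length_cons]
    push_cast
    show |st x a (run x W 0)| ≤ _ ∧ st x a (run x W 0) = st y a (run y W 0)
    rw [← h2]
    generalize run x W 0 = k at h1
    rw [abs_le] at h1
    have e1 : x (k + 1) = y (k + 1) := h _ (by rw [abs_le]; constructor <;> linarith)
    have e0 : x k = y k := h _ (by rw [abs_le]; constructor <;> linarith)
    unfold st
    rw [← e1, ← e0]
    refine ⟨?_, rfl⟩
    split_ifs <;> rw [abs_le] <;> constructor <;> linarith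

/-! ### finite quotients of the line -/

section quot

variable {F : Set (List A)} (hF : ∀ a, [a, a] ∈ F) (y : SF F) {T : Type} (π : ℤ → T)
  (h1 : ∀ k l, S k y = S l y → π k = π l)
  (h2 : ∀ a k k', π k = π k' → π (st y.1 a k) = π (st y.1 a k'))

include h2 in
theorem run_block (W : List A) (k k' : ℤ) (h : π k = π k') : π (run y.1 W k) = π (run y.1 W k') := by
  induction W with
  | nil => exact h
  | cons a W ih => exact h2 a _ _ ih

include hF in
theorem moves (g : GF F) (k : ℤ) : ∃ l, (g : Equiv.Perm (SF F)) (S k y) = S l y := by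
  obtain ⟨W, hW⟩ := exists_word hF g.1 g.2
  exact ⟨run y.1 W k, by rw [hW, el_S hF]⟩

include hF h1 h2 in
theorem block (g : GF F) {k k' l l' : ℤ} (h : π k = π k')
    (hl : (g : Equiv.Perm (SF F)) (S k y) = S l y) (hl' : (g : Equiv.Perm (SF F)) (S k' y) = S l' y) :
    π l = π l' := by
  obtain ⟨W, hW⟩ := exists_word hF g.1 g.2
  rw [hW, el_S hF] at hl hl'
  rw [← h1 _ _ hl, ← h1 _ _ hl']
  exact run_block y π h2 W k k' h

/-- the elements which act trivially on the quotient -/
def Hq : Subgroup (GF F) where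
  carrier := {g | ∀ k l, (g : Equiv.Perm (SF F)) (S k y) = S l y → π l = π k}
  one_mem' := fun k l h => (h1 _ _ h).symm
  mul_mem' := by
    intro g h hg hh k l hl
    obtain ⟨m, hm⟩ := moves hF y h k
    have e : ((g * h : GF F) : Equiv.Perm (SF F)) (S k y) =
        (g : Equiv.Perm (SF F)) ((h : Equiv.Perm (SF F)) (S k y)) := rfl
    rw [e, hm] at hl
    rw [hg m l hl, hh k m hm]
  inv_mem' := by
    intro g hg k l hl
    have e : ((g⁻¹ : GF F) : Equiv.Perm (SF F)) (S k y) = (g : Equiv.Perm (SF F))⁻¹ (S k y) := rfl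
    rw [e, Equiv.Perm.inv_eq_iff_eq] at hl
    exact (hg l k hl.symm).symm

include h2 in
theorem Hq_index [Finite T] : (Hq hF y π h1).FiniteIndex := by
  classical
  choose pos hpos using fun (g : GF F) (k : ℤ) => moves hF y g k
  let rep : T → ℤ := fun t => if h : ∃ k, π k = t then h.choose else 0
  have hrep : ∀ k, π (rep (π k)) = π k := by
    intro k
    have h : ∃ k', π k' = π k := ⟨k, rfl⟩
    show π (if h : ∃ k', π k' = π k then h.choose else 0) = _
    rw [dif_pos h]
    exact h.choose_spec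
  let f : GF F → (T → T) := fun g t => π (pos g (rep t))
  have hf : ∀ g h : GF F, f g = f h → g⁻¹ * h ∈ Hq hF y π h1 := by
    intro g h hgh k l hl
    have e : ((g⁻¹ * h : GF F) : Equiv.Perm (SF F)) (S k y) =
        (g : Equiv.Perm (SF F))⁻¹ ((h : Equiv.Perm (SF F)) (S k y)) := rfl
    rw [e, hpos, Equiv.Perm.inv_eq_iff_eq] at hl
    -- `g (S l y) = S (pos h k) y`
    have h3 : π (pos g (rep (π k))) = π (pos h (rep (π k))) := congrFun hgh (π k)
    have h4 : π (pos h (rep (π k))) = π (pos h k) :=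
      block hF y π h1 h2 h (hrep k) (hpos _ _) (hpos _ _)
    have h5 : π (pos g (rep (π k))) = π (pos g k) :=
      block hF y π h1 h2 g (hrep k) (hpos _ _) (hpos _ _)
    -- apply `g⁻¹`
    have h6 : π (pos g k) = π (pos h k) := by rw [← h5, h3, h4]
    have h7 := block hF y π h1 h2 g⁻¹ (k := pos g k) (k' := pos h k) (l := k) (l' := l) h6
      (by
        show (g : Equiv.Perm (SF F))⁻¹ _ = _
        rw [Equiv.Perm.inv_eq_iff_eq]
        exact (hpos g k).symm)
      (by
        show (g : Equiv.Perm (SF F))⁻¹ _ = _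
        rw [Equiv.Perm.inv_eq_iff_eq]
        exact hl)
    exact h7.symm
  have hfin : Finite (GF F ⧸ Hq hF y π h1) := by
    let φ : (GF F ⧸ Hq hF y π h1) → (T → T) := fun c => f c.out
    apply Finite.of_injective φ
    intro c d hcd
    have h3 := hf _ _ hcd
    rw [← QuotientGroup.out_eq' c, ← QuotientGroup.out_eq' d]
    exact QuotientGroup.eq.2 h3
  exact Subgroup.finiteIndex_of_finite_quotient

end quot

theorem pi_iff {M p : ℤ} (hM : 0 < M) (k k' : ℤ) :
    (s((k : ZMod (2 * M).toNat), ((2 * p - 1 - k : ℤ) : ZMod (2 * M).toNat)) =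
      s((k' : ZMod (2 * M).toNat), ((2 * p - 1 - k' : ℤ) : ZMod (2 * M).toNat))) ↔
      (2 * M ∣ k' - k ∨ 2 * M ∣ k + k' - (2 * p - 1)) := by
  have hN : (((2 * M).toNat : ℕ) : ℤ) = 2 * M := Int.toNat_of_nonneg (by linarith)
  rw [Sym2.eq_iff]
  simp only [ZMod.intCast_eq_intCast_iff_dvd_sub, hN]
  constructor
  · rintro (⟨h, -⟩ | ⟨h, -⟩)
    · exact Or.inl h
    · right
      have e : k + k' - (2 * p - 1) = -(2 * p - 1 - k' - k) := by ring
      rw [e, dvd_neg]
      exact h
  · rintro (h | h)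
    · left
      refine ⟨h, ?_⟩
      have e : 2 * p - 1 - k' - (2 * p - 1 - k) = -(k' - k) := by ring
      rw [e, dvd_neg]
      exact h
    · right
      constructor
      · have e : 2 * p - 1 - k' - k = -(k + k' - (2 * p - 1)) := by ring
        rw [e, dvd_neg]
        exact h
      · have e : k' - (2 * p - 1 - k) = k + k' - (2 * p - 1) := by ring
        rw [e]
        exact h

theorem fold_add {y : ℤ → A} {p M : ℤ} (h : Folded y p M) (s : ℤ) :
    ∀ t, ¬ M ∣ t - p → y (t + 2 * M * s) = y t := by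
  induction s using Int.induction_on with
  | zero => intro t _; rw [mul_zero, add_zero]
  | succ s ih =>
    intro t ht
    rw [show t + 2 * M * ((s : ℤ) + 1) = (t + 2 * M * s) + 2 * M by ring, (h _ ?_).2, ih t ht]
    intro hd
    apply ht
    have e : t - p = (t + 2 * M * s - p) - M * (2 * s) := by ring
    rw [e]
    exact dvd_sub hd (dvd_mul_right _ _)
  | pred s ih =>
    intro t ht
    have h1 : ¬ M ∣ (t + 2 * M * (-(s : ℤ) - 1)) - p := by
      intro hd
      apply ht
      have e : t - p = (t + 2 * M * (-(s : ℤ) - 1) - p) - M * (2 * (-(s : ℤ) - 1)) := by ring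
      rw [e]
      exact dvd_sub hd (dvd_mul_right _ _)
    have h2 := (h _ h1).2
    rw [show t + 2 * M * (-(s : ℤ) - 1) + 2 * M = t + 2 * M * (-(s : ℤ)) by ring, ih t ht] at h2
    exact h2.symm

/-- In a folded point the line maps to a finite path. -/
theorem fold_step {y : ℤ → A} (hy : ∀ k, y k ≠ y (k + 1)) {p M : ℤ} (hM : 0 < M) (h : Folded y p M)
    (π : ℤ → Sym2 (ZMod (2 * M).toNat))
    (hπ : ∀ k, π k = s((k : ZMod (2 * M).toNat), ((2 * p - 1 - k : ℤ) : ZMod (2 * M).toNat)))
    (a : A) (k k' : ℤ) (hk : π k = π k') : π (st y a k) = π (st y a k') := by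
  have hE : ∀ k k', π k = π k' ↔ (2 * M ∣ k' - k ∨ 2 * M ∣ k + k' - (2 * p - 1)) := by
    intro k k'
    rw [hπ, hπ]
    exact pi_iff hM k k'
  have c1 : ∀ k, (¬ M ∣ k + 1 - p ∧ y (k + 1) = a) → st y a k = k + 1 := by
    intro k hk
    unfold st
    rw [if_pos hk.2]
  have c2 : ∀ k, (¬ M ∣ k - p ∧ y k = a) → st y a k = k - 1 := by
    intro k hk
    unfold st
    rw [if_neg (fun h => hy k (by rw [hk.2, h])), if_pos hk.2]
  have c3 : ∀ k, ¬ (¬ M ∣ k + 1 - p ∧ y (k + 1) = a) → ¬ (¬ M ∣ k - p ∧ y k = a) →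
      π (st y a k) = π k := by
    intro k hk1 hk2
    unfold st
    split_ifs with h1 h2
    · have h3 : M ∣ k + 1 - p := by
        by_contra h3
        exact hk1 ⟨h3, h1⟩
      rw [hE]
      right
      have e : k + 1 + k - (2 * p - 1) = 2 * (k + 1 - p) := by ring
      rw [e]
      exact mul_dvd_mul_left _ h3
    · have h3 : M ∣ k - p := by
        by_contra h3
        exact hk2 ⟨h3, h2⟩
      rw [hE]
      right
      have e : k - 1 + k - (2 * p - 1) = 2 * (k - p) := by ring
      rw [e]
      exact mul_dvd_mul_left _ h3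
    · rfl
  have hd : ∀ t t' : ℤ, M ∣ t' - t → (M ∣ t' - p ↔ M ∣ t - p) := by
    intro t t' ht
    constructor
    · intro h'
      have e : t - p = (t' - p) - (t' - t) := by ring
      rw [e]
      exact dvd_sub h' ht
    · intro h'
      have e : t' - p = (t - p) + (t' - t) := by ring
      rw [e]
      exact dvd_add h' ht
  rcases (hE k k').1 hk with ⟨s, hs⟩ | ⟨s, hs⟩
  · obtain rfl : k' = k + 2 * M * s := by linarith
    have q : ∀ t, (¬ M ∣ t + 2 * M * s - p ∧ y (t + 2 * M * s) = a) ↔ (¬ M ∣ t - p ∧ y t = a) := by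
      intro t
      have h1 := hd t (t + 2 * M * s) ⟨2 * s, by ring⟩
      constructor
      · rintro ⟨h2, h3⟩
        have h4 : ¬ M ∣ t - p := fun h5 => h2 (h1.2 h5)
        exact ⟨h4, by rw [← fold_add h s t h4]; exact h3⟩
      · rintro ⟨h2, h3⟩
        exact ⟨fun h5 => h2 (h1.1 h5), by rw [fold_add h s t h2]; exact h3⟩
    have q1 := q (k + 1)
    rw [show k + 1 + 2 * M * s = k + 2 * M * s + 1 by ring] at q1
    have q0 := q k
    by_cases g1 : ¬ M ∣ k + 1 - p ∧ y (k + 1) = a
    · rw [c1 k g1, c1 _ (q1.2 g1), hE]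
      left
      exact ⟨s, by ring⟩
    · by_cases g0 : ¬ M ∣ k - p ∧ y k = a
      · rw [c2 k g0, c2 _ (q0.2 g0), hE]
        left
        exact ⟨s, by ring⟩
      · rw [c3 k g1 g0, c3 _ (fun h' => g1 (q1.1 h')) (fun h' => g0 (q0.1 h')), hk]
  · obtain rfl : k' = 2 * p - 1 - k + 2 * M * s := by linarith
    have q : ∀ t, (¬ M ∣ 2 * p - t + 2 * M * s - p ∧ y (2 * p - t + 2 * M * s) = a) ↔
        (¬ M ∣ t - p ∧ y t = a) := by
      intro t
      have h1 : M ∣ 2 * p - t + 2 * M * s - p ↔ M ∣ t - p := by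
        have e : 2 * p - t + 2 * M * s - p = -((t - p) - M * (2 * s)) := by ring
        rw [e, dvd_neg]
        constructor
        · intro h'
          have e2 : t - p = (t - p - M * (2 * s)) + M * (2 * s) := by ring
          rw [e2]
          exact dvd_add h' (dvd_mul_right _ _)
        · intro h'
          exact dvd_sub h' (dvd_mul_right _ _)
      have h6 : ¬ M ∣ t - p → y (2 * p - t + 2 * M * s) = y t := by
        intro h4
        have h5 : ¬ M ∣ 2 * p - t - p := by
          have e : 2 * p - t - p = -(t - p) := by ring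
          rw [e, dvd_neg]
          exact h4
        rw [fold_add h s _ h5, (h t h4).1]
      constructor
      · rintro ⟨h2, h3⟩
        have h4 : ¬ M ∣ t - p := fun h5 => h2 (h1.2 h5)
        exact ⟨h4, by rw [← h6 h4]; exact h3⟩
      · rintro ⟨h2, h3⟩
        exact ⟨fun h5 => h2 (h1.1 h5), by rw [h6 h2]; exact h3⟩
    have q1 := q (k + 1)
    rw [show 2 * p - (k + 1) + 2 * M * s = 2 * p - 1 - k + 2 * M * s by ring] at q1
    have q0 := q k
    rw [show 2 * p - k + 2 * M * s = 2 * p - 1 - k + 2 * M * s + 1 by ring] at q0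
    by_cases g1 : ¬ M ∣ k + 1 - p ∧ y (k + 1) = a
    · rw [c1 k g1, c2 _ (q1.2 g1), hE]
      right
      exact ⟨s, by ring⟩
    · by_cases g0 : ¬ M ∣ k - p ∧ y k = a
      · rw [c2 k g0, c1 _ (q0.2 g0), hE]
        right
        exact ⟨s, by ring⟩
      · rw [c3 k g1 g0, c3 _ (fun h' => g0 (q0.1 h')) (fun h' => g1 (q1.1 h')), hk]

theorem criterion (A : Type) (F : Set (List A)) (hF : ∀ a, [a, a] ∈ F)
    (h : ∀ x ∈ SF F, ∀ n : ℕ, ∃ y ∈ SF F, (∀ t : ℤ, |t| ≤ n → y t = x t) ∧
      (Periodic y ∨ ∃ p M : ℤ, p < -n ∧ n < p + M ∧ Folded y p M)) :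
    ResiduallyFinite (GF F) := by
  intro g hg
  by_contra hne
  have hne' : (g : Equiv.Perm (SF F)) ≠ 1 := fun h' => hne (Subtype.ext h')
  obtain ⟨x, hx⟩ : ∃ x, (g : Equiv.Perm (SF F)) x ≠ x := by
    by_contra hcon
    push Not at hcon
    exact hne' (Equiv.ext hcon)
  obtain ⟨W, hW⟩ := exists_word hF g.1 g.2
  obtain ⟨j, hj⟩ : ∃ j, j = run x.1 W 0 := ⟨_, rfl⟩
  have hgx : (g : Equiv.Perm (SF F)) x = S j x := by
    have h1 := el_S hF W 0 x
    rw [S_zero, ← hW, ← hj] at h1
    exact h1
  obtain ⟨t, ht⟩ : ∃ t, x.1 (t + j) ≠ x.1 t := by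
    by_contra hcon
    push Not at hcon
    apply hx
    rw [hgx]
    apply Subtype.ext
    funext t
    exact hcon t
  obtain ⟨y, hy, hyx, hcase⟩ := h x.1 x.2 (W.length + t.natAbs + j.natAbs)
  push_cast at hyx
  obtain ⟨y', hy'⟩ : ∃ y' : SF F, y'.1 = y := ⟨⟨y, hy⟩, rfl⟩
  rw [← hy'] at hyx hcase
  have hloc := run_local (x := x.1) (y := y'.1) (N := W.length) (fun u hu => (hyx u (by
    have := abs_nonneg t
    have := abs_nonneg j
    linarith)).symm) W le_rfl
  have hgy : (g : Equiv.Perm (SF F)) (S 0 y') = S j y' := by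
    rw [hW, el_S hF, ← hloc.2, ← hj]
  have hjn : |j| ≤ (W.length : ℤ) := by rw [hj]; exact hloc.1
  have hyt : y'.1 (t + j) ≠ y'.1 t := by
    have hW0 : (0 : ℤ) ≤ W.length := by positivity
    rw [hyx t (by linarith [abs_nonneg j]),
      hyx (t + j) (by
        refine (abs_add_le _ _).trans ?_
        linarith)]
    exact ht
  by_cases hper : Periodic y'.1
  · obtain ⟨q, hq0, hq⟩ := hper
    have hqs : ∀ (s : ℤ) (u : ℤ), y'.1 (u + q * s) = y'.1 u := by
      intro s
      induction s using Int.induction_on with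
      | zero => intro u; rw [mul_zero, add_zero]
      | succ s ih =>
        intro u
        rw [show u + q * ((s : ℤ) + 1) = (u + q * s) + q by ring, hq, ih]
      | pred s ih =>
        intro u
        have h2 := hq (u + q * (-(s : ℤ) - 1))
        rw [show u + q * (-(s : ℤ) - 1) + q = u + q * (-(s : ℤ)) by ring, ih] at h2
        exact h2.symm
    have hfin : (Set.range (fun k : ℤ => S k y')).Finite := by
      refine ((Set.finite_Ico (0 : ℤ) |q|).image (fun k : ℤ => S k y')).subset ?_
      rintro _ ⟨k, rfl⟩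
      refine ⟨k % q, ⟨Int.emod_nonneg _ hq0, Int.emod_lt_abs _ hq0⟩, ?_⟩
      apply Subtype.ext
      funext u
      show y'.1 (u + k % q) = y'.1 (u + k)
      rw [← hqs (k / q) (u + k % q), add_assoc, Int.emod_add_mul_ediv]
    have : Finite (Set.range (fun k : ℤ => S k y')) := hfin.to_subtype
    have h1 : ∀ k l, S k y' = S l y' →
        (⟨S k y', k, rfl⟩ : Set.range (fun k : ℤ => S k y')) = ⟨S l y', l, rfl⟩ :=
      fun k l hkl => Subtype.ext hkl
    have h2 : ∀ a k k', (⟨S k y', k, rfl⟩ : Set.range (fun k : ℤ => S k y')) = ⟨S k' y', k', rfl⟩ →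
        (⟨S (st y'.1 a k) y', _, rfl⟩ : Set.range (fun k : ℤ => S k y')) =
          ⟨S (st y'.1 a k') y', _, rfl⟩ := by
      intro a k k' hkk
      apply Subtype.ext
      show S (st y'.1 a k) y' = S (st y'.1 a k') y'
      have hkk' : S k y' = S k' y' := congrArg Subtype.val hkk
      rw [← phi_S, ← phi_S, hkk']
    have h3 := hg _ (Hq_index hF y' (fun k => (⟨S k y', k, rfl⟩ : Set.range (fun k : ℤ => S k y')))
      h1 h2)
    have h4 := h3 0 j hgy
    have h5 : S j y' = S 0 y' := congrArg Subtype.val h4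
    have h6 : y'.1 (t + j) = y'.1 (t + 0) := congrFun (congrArg Subtype.val h5) t
    rw [add_zero] at h6
    exact hyt h6
  · rcases hcase with h0 | ⟨p, M, hp, hpM, hfold⟩
    · exact hper h0
    have hM : 0 < M := by omega
    have : NeZero (2 * M).toNat := ⟨by omega⟩
    have : Finite (ZMod (2 * M).toNat) := inferInstance
    have : Finite (Sym2 (ZMod (2 * M).toNat)) := inferInstance
    have h1 : ∀ k l, S k y' = S l y' →
        s((k : ZMod (2 * M).toNat), ((2 * p - 1 - k : ℤ) : ZMod (2 * M).toNat)) =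
          s((l : ZMod (2 * M).toNat), ((2 * p - 1 - l : ℤ) : ZMod (2 * M).toNat)) := by
      intro k l hkl
      have hkl' : k = l := by
        by_contra hne2
        apply hper
        refine ⟨k - l, sub_ne_zero.2 hne2, fun u => ?_⟩
        have h5 : y'.1 (u - l + k) = y'.1 (u - l + l) :=
          congrFun (congrArg Subtype.val hkl) (u - l)
        rw [sub_add_cancel] at h5
        rw [show u + (k - l) = u - l + k by ring]
        exact h5
      rw [hkl']
    have h3 := hg _ (Hq_index hF y' (fun k : ℤ =>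
      s((k : ZMod (2 * M).toNat), ((2 * p - 1 - k : ℤ) : ZMod (2 * M).toNat))) h1
      (fun a k k' hkk => fold_step (fun k => ne_succ hF y'.2 k) hM hfold _ (fun _ => rfl) a k k' hkk))
    have h4 := h3 0 j hgy
    have hj0 : j ≠ 0 := by
      intro h0
      apply ht
      rw [h0, add_zero]
    rw [abs_le] at hjn
    push_cast at hp hpM
    have hjn2 := abs_nonneg t
    have hjn3 := abs_nonneg j
    rcases (pi_iff hM j 0).1 h4 with ⟨c, hc⟩ | ⟨c, hc⟩
    · have : c = 0 := by
        by_contra hc0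
        rcases lt_or_gt_of_ne hc0 with h5 | h5
        · nlinarith
        · nlinarith
      rw [this] at hc
      omega
    · rcases le_or_gt c 0 with h5 | h5
      · nlinarith
      · nlinarith

/-! ### an example without periodic points -/

/-- the letter `0` for `0`, and `1, 2, 3` cyclically for `1, 2, 3, …` -/
def lab (k : ℕ) : Fin 4 := if k = 0 then 0 else if k % 3 = 1 then 1 else if k % 3 = 2 then 2 else 3

theorem lab_succ_ne (k : ℕ) : lab k ≠ lab (k + 1) := by
  unfold lab
  rcases Nat.eq_zero_or_pos k with h | h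
  · subst h; decide
  · have h3 : k % 3 = 0 ∨ k % 3 = 1 ∨ k % 3 = 2 := by omega
    rcases h3 with h3 | h3 | h3
    · have h4 : (k + 1) % 3 = 1 := by omega
      simp [h3, h4, h.ne']
    · have h4 : (k + 1) % 3 = 2 := by omega
      simp [h3, h4, h.ne']
    · have h4 : (k + 1) % 3 = 0 := by omega
      simp [h3, h4, h.ne']

/-- The letter at the place `t ≠ 0` is given by the exponent of `2` in `t`, the letter at `0` is `1`. -/
noncomputable def ruler (t : ℤ) : Fin 4 := if t = 0 then 1 else lab (padicValInt 2 t)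

/-- the words that do not occur in the ruler sequence -/
def FR : Set (List (Fin 4)) :=
  {w | ∀ m : ℤ, List.ofFn (fun i : Fin w.length => ruler (m + i)) ≠ w}

theorem val_eq {t t' : ℤ} (ht : t ≠ 0) (ht' : t' ≠ 0)
    (h : ∀ n : ℕ, ((2 : ℤ) ^ n ∣ t ↔ (2 : ℤ) ^ n ∣ t')) : padicValInt 2 t = padicValInt 2 t' := by
  apply eq_of_forall_le_iff
  intro n
  have h1 := padicValInt_dvd_iff (p := 2) n t
  have h2 := padicValInt_dvd_iff (p := 2) n t'
  push_cast at h1 h2
  have h3 := h n
  tauto

theorem ne_zero_of {k : ℕ} {t : ℤ} (ht : ¬ (2 : ℤ) ^ k ∣ t) : t ≠ 0 := by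
  rintro rfl
  exact ht (dvd_zero _)

theorem ruler_add {k : ℕ} {t : ℤ} (ht : ¬ (2 : ℤ) ^ k ∣ t) (c : ℤ) :
    ruler (t + 2 ^ k * c) = ruler t := by
  have h1 : ¬ (2 : ℤ) ^ k ∣ t + 2 ^ k * c := by
    intro h
    exact ht ((dvd_add_left (dvd_mul_right _ _)).1 h)
  unfold ruler
  rw [if_neg (ne_zero_of h1), if_neg (ne_zero_of ht)]
  congr 1
  apply val_eq (ne_zero_of h1) (ne_zero_of ht)
  intro n
  rcases le_total n k with h | h
  · exact dvd_add_left ((pow_dvd_pow 2 h).trans (dvd_mul_right _ _))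
  · constructor
    · intro h2
      exact absurd ((pow_dvd_pow 2 h).trans h2) h1
    · intro h2
      exact absurd ((pow_dvd_pow 2 h).trans h2) ht

theorem ruler_neg (t : ℤ) : ruler (-t) = ruler t := by
  unfold ruler
  by_cases h : t = 0
  · rw [h, neg_zero]
  · rw [if_neg h, if_neg (neg_ne_zero.2 h)]
    congr 1
    apply val_eq (neg_ne_zero.2 h) h
    intro n
    exact dvd_neg

theorem ruler_fold (k : ℕ) : Folded ruler 0 (2 ^ k) := by
  intro t ht
  rw [sub_zero] at ht
  constructor
  · rw [mul_zero, zero_sub, ruler_neg]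
  · rw [mul_comm (2 : ℤ) (2 ^ k)]
    exact ruler_add ht 2

theorem ruler_pow (k : ℕ) (c : ℤ) : ruler (2 ^ k * (2 * c + 1)) = lab k := by
  have h0 : (2 : ℤ) ^ k * (2 * c + 1) ≠ 0 := mul_ne_zero (by positivity) (by omega)
  unfold ruler
  rw [if_neg h0]
  congr 1
  apply le_antisymm
  · by_contra h
    have h1 := (padicValInt_dvd_iff (p := 2) (k + 1) (2 ^ k * (2 * c + 1))).2 (Or.inr (by omega))
    push_cast at h1
    rw [pow_succ] at h1
    have h2 := (mul_dvd_mul_iff_left (by positivity : (2 : ℤ) ^ k ≠ 0)).1 h1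
    omega
  · have h1 := (padicValInt_dvd_iff (p := 2) k (2 ^ k * (2 * c + 1))).1 (by
      push_cast
      exact dvd_mul_right _ _)
    rcases h1 with h1 | h1
    · exact absurd h1 h0
    · exact h1

theorem ruler_mem : ruler ∈ SF FR := by
  intro m n h
  have h1 := h m
  apply h1
  exact List.ext_getElem (by simp) (by intros; simp)

/-- the windows of the points of the subshift occur in the ruler sequence -/
theorem occurs {x : ℤ → Fin 4} (hx : x ∈ SF FR) (m : ℤ) (n : ℕ) :
    ∃ s : ℤ, ∀ i : ℕ, i < n → x (m + i) = ruler (s + i) := by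
  have h := hx m n
  have h1 : ∃ s : ℤ, List.ofFn (fun i : Fin (List.ofFn fun i : Fin n => x (m + i)).length =>
      ruler (s + i)) = List.ofFn (fun i : Fin n => x (m + i)) := by
    by_contra hcon
    push Not at hcon
    exact h hcon
  obtain ⟨s, hs⟩ := h1
  refine ⟨s, fun i hi => ?_⟩
  have h2 := congrArg (fun l => l[i]?) hs
  simp only [List.getElem?_ofFn, List.length_ofFn, hi, dif_pos] at h2
  simpa using h2.symm

theorem FR_aa (a : Fin 4) : [a, a] ∈ FR := by
  intro m h
  have h1 : ruler m = a ∧ ruler (m + 1) = a := by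
    simpa [List.ofFn_succ] using h
  have h2 : ruler m ≠ ruler (m + 1) := by
    rcases Int.even_or_odd' m with ⟨c, rfl | rfl⟩
    · have h3 : ruler (2 * c + 1) = 0 := by simpa [lab] using ruler_pow 0 c
      have h4 : ruler (2 * c) ≠ 0 := by
        unfold ruler
        split_ifs with h5
        · decide
        · have h6 := (padicValInt_dvd_iff (p := 2) 1 (2 * c)).1 (by simp)
          have h7 : padicValInt 2 (2 * c) ≠ 0 := by
            rcases h6 with h6 | h6
            · exact absurd h6 h5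
            · omega
          unfold lab
          rw [if_neg h7]
          split_ifs <;> decide
      rw [h3]
      exact h4
    · have h3 : ruler (2 * c + 1) = 0 := by simpa [lab] using ruler_pow 0 c
      have h4 : ruler (2 * c + 1 + 1) ≠ 0 := by
        unfold ruler
        split_ifs with h5
        · decide
        · have h6 := (padicValInt_dvd_iff (p := 2) 1 (2 * c + 1 + 1)).1 (by
            simp only [pow_one]; exact ⟨c + 1, by push_cast; ring⟩)
          have h7 : padicValInt 2 (2 * c + 1 + 1) ≠ 0 := by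
            rcases h6 with h6 | h6
            · exact absurd h6 h5
            · omega
          unfold lab
          rw [if_neg h7]
          split_ifs <;> decide
      rw [h3]
      exact fun h => h4 h.symm
  exact h2 (h1.1.trans h1.2.symm)

theorem no_periodic : ∀ y ∈ SF FR, ¬ Periodic y := by
  rintro y hy ⟨q, hq0, hq⟩
  obtain ⟨k, m, hm, hqm⟩ := Nat.exists_eq_two_pow_mul_odd (n := q.natAbs) (by omega)
  obtain ⟨c, rfl⟩ := hm
  obtain ⟨Q, hQ⟩ : ∃ Q : ℕ, Q = q.natAbs := ⟨_, rfl⟩
  have hQq : ∀ t, y (t + Q) = y t := by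
    intro t
    rcases Int.natAbs_eq q with h | h
    · rw [hQ, ← h]
      exact hq t
    · have h1 : (Q : ℤ) = -q := by rw [hQ]; omega
      rw [h1]
      have h2 := hq (t + -q)
      rw [neg_add_cancel_right] at h2
      exact h2.symm
  obtain ⟨s, hs⟩ := occurs hy 0 (Q + 2 ^ (k + 2) + 1)
  obtain ⟨i, hi⟩ : ∃ i : ℕ, (i : ℤ) = (2 ^ (k + 1) - s - Q) % 2 ^ (k + 2) :=
    ⟨((2 ^ (k + 1) - s - Q) % 2 ^ (k + 2)).toNat,
      Int.toNat_of_nonneg (Int.emod_nonneg _ (by positivity))⟩
  have hi2 : i < 2 ^ (k + 2) := by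
    have : (i : ℤ) < 2 ^ (k + 2) := by rw [hi]; exact Int.emod_lt_of_pos _ (by positivity)
    exact_mod_cast this
  have hdm := Int.emod_add_mul_ediv (2 ^ (k + 1) - s - (Q : ℤ)) (2 ^ (k + 2))
  obtain ⟨e, he⟩ : ∃ e : ℤ, e = (2 ^ (k + 1) - s - (Q : ℤ)) / 2 ^ (k + 2) := ⟨_, rfl⟩
  rw [← hi, ← he] at hdm
  have hQ2 : (Q : ℤ) = 2 ^ k * (2 * c + 1) := by
    rw [hQ, hqm]
    push_cast
    ring
  have e1 : y i = lab k := by
    have h1 := hs i (by omega)
    rw [zero_add] at h1
    rw [h1, ← ruler_pow k (2 * -e - c)]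
    congr 1
    have h2 : s + (i : ℤ) = 2 ^ (k + 1) - Q - 2 ^ (k + 2) * e := by linarith
    rw [h2, hQ2, pow_succ, pow_add]
    ring
  have e2 : y (i + Q) = lab (k + 1) := by
    have h1 := hs (i + Q) (by omega)
    rw [zero_add] at h1
    push_cast at h1
    rw [h1, ← ruler_pow (k + 1) (-e)]
    congr 1
    have h2 : s + ((i : ℤ) + Q) = 2 ^ (k + 1) - 2 ^ (k + 2) * e := by linarith
    rw [h2, pow_succ, pow_add]
    ring
  have h3 := hQq i
  rw [e1, e2] at h3
  exact lab_succ_ne k h3.symm

theorem shift_fold (c e : ℤ) (k : ℕ) : Folded (sh c ruler) (-c + 2 ^ k * e) (2 ^ k) := by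
  intro t ht
  have hu : ¬ (2 : ℤ) ^ k ∣ t + c := by
    intro h
    apply ht
    have e1 : t - (-c + 2 ^ k * e) = (t + c) - 2 ^ k * e := by ring
    rw [e1]
    exact dvd_sub h (dvd_mul_right _ _)
  have hu' : ¬ (2 : ℤ) ^ k ∣ -(t + c) := by rwa [dvd_neg]
  constructor
  · show ruler (2 * (-c + 2 ^ k * e) - t + c) = ruler (t + c)
    rw [← ruler_neg (t + c), ← ruler_add hu' (2 * e)]
    congr 1
    ring
  · show ruler (t + 2 * 2 ^ k + c) = ruler (t + c)
    rw [← ruler_add hu 2]
    congr 1
    ring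

theorem FR_windows {x : ℤ → Fin 4} (hx : x ∈ SF FR) (n : ℕ) : ∃ y ∈ SF FR,
    (∀ t : ℤ, |t| ≤ n → y t = x t) ∧
      (Periodic y ∨ ∃ p M : ℤ, p < -n ∧ n < p + M ∧ Folded y p M) := by
  obtain ⟨s, hs⟩ := occurs hx (-n) (2 * n + 1)
  have h1 : ∀ t : ℤ, |t| ≤ n → ruler (t + (s + n)) = x t := by
    intro t ht
    rw [abs_le] at ht
    obtain ⟨i, hi⟩ : ∃ i : ℕ, (i : ℤ) = t + n := ⟨(t + n).toNat, Int.toNat_of_nonneg (by linarith)⟩
    have h2 := hs i (by omega)
    rw [show (-(n : ℤ) + i) = t by linarith] at h2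
    rw [h2]
    congr 1
    linarith
  -- move the window away from `0`
  obtain ⟨c, hc, h2⟩ : ∃ c : ℤ, (n < c ∨ c < -n) ∧ ∀ t : ℤ, |t| ≤ n → ruler (t + c) = x t := by
    by_cases h0 : (n : ℤ) < s + n ∨ s + n < -(n : ℤ)
    · exact ⟨s + n, h0, h1⟩
    · push Not at h0
      have h3 : 3 * n + 1 < 2 ^ (3 * n + 1) := Nat.lt_two_pow_self
      have h3' : (3 * (n : ℤ) + 1) < 2 ^ (3 * n + 1) := by exact_mod_cast h3
      refine ⟨s + n + 2 ^ (3 * n + 1), Or.inl (by linarith), fun t ht => ?_⟩
      rw [← h1 t ht, ← add_assoc]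
      rw [abs_le] at ht
      by_cases h4 : t + (s + n) = 0
      · rw [h4, zero_add]
        have h5 := ruler_pow (3 * n + 1) 0
        rw [mul_zero, zero_add, mul_one] at h5
        rw [h5]
        unfold ruler lab
        rw [if_neg (by omega), if_pos (by omega), if_pos rfl]
      · have h5 : ¬ (2 : ℤ) ^ (3 * n + 1) ∣ t + (s + n) := by
          intro h6
          have h7 := Int.le_of_dvd (abs_pos.2 h4) ((dvd_abs _ _).2 h6)
          have h8 : |t + (s + n)| ≤ 2 * n := by
            rw [abs_le]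
            constructor <;> linarith
          linarith
        have h6 := ruler_add h5 1
        rw [mul_one] at h6
        exact h6
  refine ⟨sh c ruler, sh_mem c ruler_mem, h2, Or.inr ?_⟩
  have h3 : c.natAbs + n < 2 ^ (c.natAbs + n) := Nat.lt_two_pow_self
  have h3' : |c| + (n : ℤ) < 2 ^ (c.natAbs + n) := by
    rw [Int.abs_eq_natAbs]
    exact_mod_cast h3
  rcases hc with hc | hc
  · refine ⟨-c + 2 ^ (c.natAbs + n) * 0, 2 ^ (c.natAbs + n), by linarith, ?_, shift_fold _ _ _⟩
    have := le_abs_self c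
    linarith
  · refine ⟨-c + 2 ^ (c.natAbs + n) * (-1), 2 ^ (c.natAbs + n), ?_, by linarith, shift_fold _ _ _⟩
    have := neg_le_abs c
    linarith

theorem infinite_GF {A : Type} {F : Set (List A)} (hF : ∀ a, [a, a] ∈ F) (y : SF F)
    (hy : ¬ Periodic y.1) : Infinite (GF F) := by
  have h1 : ∀ k : ℕ, ∃ g : GF F, (g : Equiv.Perm (SF F)) y = S k y := by
    intro k
    induction k with
    | zero => exact ⟨1, (S_zero y).symm⟩
    | succ k ih =>
      obtain ⟨g, hg⟩ := ih
      refine ⟨⟨phiPerm F (y.1 (k + 1)), Subgroup.subset_closure ⟨_, rfl⟩⟩ * g, ?_⟩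
      show phiPerm F (y.1 (k + 1)) ((g : Equiv.Perm (SF F)) y) = _
      rw [hg, perm_apply hF, phi_S]
      unfold st
      rw [if_pos rfl]
      push_cast
      rfl
  choose g hg using h1
  apply Infinite.of_injective g
  intro k l hkl
  by_contra hne
  apply hy
  refine ⟨(k : ℤ) - l, by omega, fun t => ?_⟩
  have h2 : S k y = S l y := by rw [← hg, ← hg, hkl]
  have h3 : y.1 (t - l + k) = y.1 (t - l + l) := congrFun (congrArg Subtype.val h2) (t - l)
  rw [sub_add_cancel] at h3
  rw [show t + ((k : ℤ) - l) = t - l + k by ring]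
  exact h3

/-- **Theorem.** (1) Let all `aa` be in `F`. If each window `[-n, n]` of each point `x` of `S_F` occurs
in a point `y` of `S_F` which is periodic, or which is folded at the places `p + M ℤ`, with the window
between the places `p` and `p + M`, then `G_F` is residually finite.
(2) For the alphabet with four letters there is such an `F` for which `S_F` is not empty and has no
periodic points, so that `G_F` is infinite, but `G_F` is residually finite. -/
theorem result : (∀ (A : Type) (F : Set (List A)), (∀ a, [a, a] ∈ F) →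
    (∀ x ∈ SF F, ∀ n : ℕ, ∃ y ∈ SF F, (∀ t : ℤ, |t| ≤ n → y t = x t) ∧
      (Periodic y ∨ ∃ p M : ℤ, p < -n ∧ n < p + M ∧ Folded y p M)) →
    ResiduallyFinite (GF F)) ∧
    ∃ F : Set (List (Fin 4)), (∀ a, [a, a] ∈ F) ∧ (SF F).Nonempty ∧ (∀ y ∈ SF F, ¬ Periodic y) ∧
      Infinite (GF F) ∧ ResiduallyFinite (GF F) :=
  ⟨fun A F hF h => criterion A F hF h, FR, FR_aa, ⟨_, ruler_mem⟩, no_periodic,
    infinite_GF FR_aa ⟨ruler, ruler_mem⟩ (no_periodic _ ruler_mem),
    criterion _ FR FR_aa fun _ hx n => FR_windows hx n⟩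

end Pool.Agent.Results.MP_af98ca_al.PeriodicAndFoldedPoints
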